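import Pool.Agent.Helper54.S4.Stmts

set_option autoImplicit false

namespace Pool.Agent.Helper54.S4

open Finset Pool.Agent.Helper54.SP

theorem co4_idx {Γ : List Gt} {g : Gt} (hg : g ∈ Γ) :
    ∃ s, s < Γ.length ∧ Γ.getD s (false, 0, 0, 0, 0, 0) = g := by
  obtain ⟨s, hs, e⟩ := List.getElem_of_mem hg
  exact ⟨s, hs, by rw [List.getD_eq_getElem _ _ hs, e]⟩

theorem co4_cross {O n n' U U' A A' I : ℝ} (h1 : n' < n) (h2 : n < O) (h3 : O < I)
    (e1 : (O - n') * (U - O) * (I - n) * (I - U') = (O - n) * (U' - O) * (I - n') * (I - U))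
    (e2 : (O - n') * (A - O) * (I - n) * (I - A') = (O - n) * (A' - O) * (I - n') * (I - A)) :
    (A' - O) * (U - O) * ((I - A) * (I - U')) = (A - O) * (U' - O) * ((I - A') * (I - U)) := by
  have hX : 0 < (O - n') * (I - n) := mul_pos (by linarith) (by linarith)
  have hY : 0 < (O - n) * (I - n') := mul_pos (by linarith) (by linarith)
  have hXY : 0 < (O - n') * (I - n) * ((O - n) * (I - n')) := mul_pos hX hY
  apply mul_left_cancel₀ hXY.ne'
  linear_combination ((A' - O) * (I - A) * ((O - n) * (I - n'))) * e1 -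
    ((U' - O) * (I - U) * ((O - n) * (I - n'))) * e2

theorem co4_eq {κ O U U' A A' I : ℝ} (hU : U < I) (hU' : U' < I) (hA : A < I) (hA' : A' < I)
    (e : (A' - O) * (U - O) * ((I - A) * (I - U')) = (A - O) * (U' - O) * ((I - A') * (I - U))) :
    κ * ((A' - O) / (I - A')) * (κ * ((U - O) / (I - U))) =
      κ * ((A - O) / (I - A)) * (κ * ((U' - O) / (I - U'))) := by
  have h1 : I - U ≠ 0 := (sub_pos.2 hU).ne'
  have h2 : I - U' ≠ 0 := (sub_pos.2 hU').ne'
  have h3 : I - A ≠ 0 := (sub_pos.2 hA).ne'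
  have h4 : I - A' ≠ 0 := (sub_pos.2 hA').ne'
  have h5 : ((A' - O) / (I - A')) * ((U - O) / (I - U)) =
      ((A - O) / (I - A)) * ((U' - O) / (I - U')) := by
    rw [div_mul_div_comm, div_mul_div_comm, div_eq_div_iff (mul_ne_zero h4 h1)
      (mul_ne_zero h3 h2)]
    exact e
  calc κ * ((A' - O) / (I - A')) * (κ * ((U - O) / (I - U)))
      = κ * κ * (((A' - O) / (I - A')) * ((U - O) / (I - U))) := by ring
    _ = κ * κ * (((A - O) / (I - A)) * ((U' - O) / (I - U'))) := by rw [h5]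
    _ = _ := by ring

theorem st_CO4 (_h1 : ST_WI4) : ST_CO4 := by
  intro Γ nw V hWF hB hV hR
  obtain ⟨⟨gt, hgt, hkt⟩, gf, hgf, hkf⟩ := hB
  obtain ⟨st, hst, est⟩ := co4_idx hgt
  obtain ⟨sf, hsf, esf⟩ := co4_idx hgf
  set K := Γ.length with hK
  -- attached wires
  have hga : ∀ s r, r < 4 → ga Γ (4 * s + r) = Γ.getD s (false, 0, 0, 0, 0, 0) := by
    intro s r hr
    unfold ga
    have e : (4 * s + r) / 4 = s := by omega
    rw [e]
  have w0 : ∀ s r, r < 4 → wi Γ nw (4 * s + r) 0 = 2 * s := by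
    intro s r hr
    have e : (4 * s + r) / 4 = s := by omega
    simp [wi, e]
  have w1 : ∀ s r, r < 4 → wi Γ nw (4 * s + r) 1 = 2 * s + 1 := by
    intro s r hr
    have e : (4 * s + r) / 4 = s := by omega
    simp [wi, e]
  have w2 : ∀ s r, r < 4 → wi Γ nw (4 * s + r) 2 = 2 * K +
      (if (Γ.getD s (false, 0, 0, 0, 0, 0)).k = true then 1 else 0) := by
    intro s r hr
    have e := hga s r hr
    simp only [wi, e]
    norm_num
    rfl
  have w3 : ∀ s, wi Γ nw (4 * s + 0) 3 = 2 * K + 2 + (Γ.getD s (false, 0, 0, 0, 0, 0)).u := by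
    intro s
    have e := hga s 0 (by norm_num)
    have e' : (4 * s + 0) % 4 < 2 := by omega
    simp only [wi, e]
    rw [if_neg (by norm_num), if_neg (by norm_num), if_neg (by norm_num), if_pos trivial, if_pos e']
  have w4 : ∀ s, wi Γ nw (4 * s + 0) 4 = 2 * K + 2 + (Γ.getD s (false, 0, 0, 0, 0, 0)).u' := by
    intro s
    have e := hga s 0 (by norm_num)
    have e' : (4 * s + 0) % 4 < 2 := by omega
    simp only [wi, e]
    rw [if_neg (by norm_num), if_neg (by norm_num), if_neg (by norm_num), if_neg (by norm_num),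
      if_pos trivial, if_pos e']
  have w3' : ∀ s, wi Γ nw (4 * s + 2) 3 = 2 * K + 2 + (Γ.getD s (false, 0, 0, 0, 0, 0)).a := by
    intro s
    have e := hga s 2 (by norm_num)
    have e' : ¬ (4 * s + 2) % 4 < 2 := by omega
    simp only [wi, e]
    rw [if_neg (by norm_num), if_neg (by norm_num), if_neg (by norm_num), if_pos trivial, if_neg e']
  have w4' : ∀ s, wi Γ nw (4 * s + 2) 4 = 2 * K + 2 + (Γ.getD s (false, 0, 0, 0, 0, 0)).a' := by
    intro s
    have e := hga s 2 (by norm_num)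
    have e' : ¬ (4 * s + 2) % 4 < 2 := by omega
    simp only [wi, e]
    rw [if_neg (by norm_num), if_neg (by norm_num), if_neg (by norm_num), if_neg (by norm_num),
      if_pos trivial, if_neg e']
  have w5 : ∀ j, wi Γ nw j 5 = 2 * K + 2 + nw := by
    intro j
    simp only [wi]
    rw [if_neg (by norm_num), if_neg (by norm_num), if_neg (by norm_num), if_neg (by norm_num),
      if_neg (by norm_num)]
  have at0 : At4 Γ nw (2 * K) := by
    refine ⟨4 * sf + 0, by omega, 2, by norm_num, ?_⟩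
    rw [w2 sf 0 (by norm_num), esf, hkf]
    simp
  have at1 : At4 Γ nw (2 * K + 1) := by
    refine ⟨4 * st + 0, by omega, 2, by norm_num, ?_⟩
    rw [w2 st 0 (by norm_num), est, hkt]
    simp
  have atI : At4 Γ nw (2 * K + 2 + nw) :=
    ⟨4 * sf + 0, by omega, 5, by norm_num, (w5 _).symm⟩
  have atz : ∀ z, Att Γ z → At4 Γ nw (2 * K + 2 + z) ∧ z < nw := by
    rintro z ⟨g, hg, hz⟩
    obtain ⟨s, hs, es⟩ := co4_idx hg
    obtain ⟨hw1, hw2, hw3, hw4, -⟩ := hWF.wires g hg
    rcases hz with hz | hz | hz | hz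
    · exact ⟨⟨4 * s + 0, by omega, 3, by norm_num, by rw [w3 s, es, hz]⟩, by omega⟩
    · exact ⟨⟨4 * s + 0, by omega, 4, by norm_num, by rw [w4 s, es, hz]⟩, by omega⟩
    · exact ⟨⟨4 * s + 2, by omega, 3, by norm_num, by rw [w3' s, es, hz]⟩, by omega⟩
    · exact ⟨⟨4 * s + 2, by omega, 4, by norm_num, by rw [w4' s, es, hz]⟩, by omega⟩
  have hPQ : V (2 * K) < V (2 * K + 1) := hV _ _ at0 at1 (by omega)
  have hQz : ∀ z, Att Γ z → V (2 * K + 1) < V (2 * K + 2 + z) := fun z hz =>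
    hV _ _ at1 (atz z hz).1 (by omega)
  have hzR : ∀ z, Att Γ z → V (2 * K + 2 + z) < V (2 * K + 2 + nw) := fun z hz =>
    hV _ _ (atz z hz).1 atI (by have := (atz z hz).2; omega)
  have hQR : V (2 * K + 1) < V (2 * K + 2 + nw) := hV _ _ at1 atI (by omega)
  set P := V (2 * K) with hPdef
  set Q := V (2 * K + 1) with hQdef
  set R := V (2 * K + 2 + nw) with hRdef
  have hQP : Q - P ≠ 0 := (sub_pos.2 hPQ).ne'
  have v0 : ∀ T : ℝ, T < R → (T - P) * (R - Q) / ((R - T) * (Q - P)) - 0 =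
      (R - Q) / (Q - P) * ((T - P) / (R - T)) := by
    intro T hT
    have hTR : R - T ≠ 0 := (sub_pos.2 hT).ne'
    field_simp
    ring
  have v1 : ∀ T : ℝ, T < R → (T - P) * (R - Q) / ((R - T) * (Q - P)) - 1 =
      (R - P) / (Q - P) * ((T - Q) / (R - T)) := by
    intro T hT
    have hTR : R - T ≠ 0 := (sub_pos.2 hT).ne'
    field_simp
    ring
  refine ⟨fun z => (V (2 * K + 2 + z) - P) * (R - Q) / ((R - V (2 * K + 2 + z)) * (Q - P)),
    ?_, ?_, ?_⟩
  · intro g hg
    obtain ⟨s, hs, es⟩ := co4_idx hg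
    have au : Att Γ g.u := ⟨g, hg, Or.inl rfl⟩
    have au' : Att Γ g.u' := ⟨g, hg, Or.inr (Or.inl rfl)⟩
    have aa : Att Γ g.a := ⟨g, hg, Or.inr (Or.inr (Or.inl rfl))⟩
    have aa' : Att Γ g.a' := ⟨g, hg, Or.inr (Or.inr (Or.inr rfl))⟩
    have at_n' : At4 Γ nw (2 * s) := ⟨4 * s + 0, by omega, 0, by norm_num,
      (w0 s 0 (by norm_num)).symm⟩
    have at_n : At4 Γ nw (2 * s + 1) := ⟨4 * s + 0, by omega, 1, by norm_num,
      (w1 s 0 (by norm_num)).symm⟩
    have r1 := hR (4 * s + 0) (by omega)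
    have r2 := hR (4 * s + 2) (by omega)
    unfold FF FG at r1 r2
    simp only [w5] at r1 r2
    rw [w0 s 0 (by norm_num), w1 s 0 (by norm_num), w2 s 0 (by norm_num), w3 s, w4 s, es] at r1
    rw [w0 s 2 (by norm_num), w1 s 2 (by norm_num), w2 s 2 (by norm_num), w3' s, w4' s, es] at r2
    have hn : V (2 * s) < V (2 * s + 1) := hV _ _ at_n' at_n (by omega)
    by_cases hk : g.k = true
    · rw [if_pos hk] at r1 r2
      have hnO : V (2 * s + 1) < Q := hV _ _ at_n at1 (by omega)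
      have e := co4_cross hn hnO hQR r1 r2
      have hc : cen g.k = 1 := by rw [hk]; rfl
      rw [hc]
      dsimp only
      rw [v1 _ (hzR _ aa'), v1 _ (hzR _ au), v1 _ (hzR _ aa), v1 _ (hzR _ au')]
      exact co4_eq (hzR _ au) (hzR _ au') (hzR _ aa) (hzR _ aa') e
    · rw [if_neg hk] at r1 r2
      simp only [add_zero] at r1 r2
      have hnO : V (2 * s + 1) < P := hV _ _ at_n at0 (by omega)
      have e := co4_cross hn hnO (hPQ.trans hQR) r1 r2
      have hc : cen g.k = 0 := by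
        rw [Bool.not_eq_true] at hk
        rw [hk]; rfl
      rw [hc]
      dsimp only
      rw [v0 _ (hzR _ aa'), v0 _ (hzR _ au), v0 _ (hzR _ aa), v0 _ (hzR _ au')]
      exact co4_eq (hzR _ au) (hzR _ au') (hzR _ aa) (hzR _ aa') e
  · intro z hz
    dsimp only
    have h := v1 _ (hzR z hz)
    have hpos : 0 < (R - P) / (Q - P) * ((V (2 * K + 2 + z) - Q) / (R - V (2 * K + 2 + z))) :=
      mul_pos (div_pos (sub_pos.2 (hPQ.trans hQR)) (sub_pos.2 hPQ))
        (div_pos (sub_pos.2 (hQz z hz)) (sub_pos.2 (hzR z hz)))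
    linarith
  · intro z z' hz hz' hlt
    dsimp only
    have h := v1 _ (hzR z hz)
    have h' := v1 _ (hzR z' hz')
    have hzz : V (2 * K + 2 + z) < V (2 * K + 2 + z') := hV _ _ (atz z hz).1 (atz z' hz').1
      (by omega)
    have hfr : (V (2 * K + 2 + z) - Q) / (R - V (2 * K + 2 + z)) <
        (V (2 * K + 2 + z') - Q) / (R - V (2 * K + 2 + z')) := by
      rw [div_lt_div_iff₀ (sub_pos.2 (hzR z hz)) (sub_pos.2 (hzR z' hz'))]
      nlinarith [mul_pos (sub_pos.2 hzz) (sub_pos.2 hQR)]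
    have hc : 0 < (R - P) / (Q - P) := div_pos (sub_pos.2 (hPQ.trans hQR)) (sub_pos.2 hPQ)
    have := mul_lt_mul_of_pos_left hfr hc
    linarith

end Pool.Agent.Helper54.S4
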